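import Pool.Agent.D0H73.OP.Stm

/-!
# Project OP, module CMP: comparison with an exact character of block `k`
-/

open Finset
open scoped BigOperators

namespace Pool.Agent.D0H97.OP.Cmp

open Pool.Agent.V1192 Pool.Agent.V1192.GA Pool.Agent.D0H73.OP
open Pool.Agent.V1192.UOD (V)

noncomputable section

/-- The product of the disc variables of a stage. -/
theorem prod_gen {n : ℕ} (k : ℕ) (K K1 : Fin n) (hK : (K : ℕ) = k) (hK1 : (K1 : ℕ) = k + 1)
    (s : Fin n → ℂ) (z ζ : ℂ) (h1 : ∀ i : Fin n, (i : ℕ) < k → s i = 1) (h2 : s K = z)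
    (h3 : s K1 = ζ) (h4 : ∀ i : Fin n, k + 1 < (i : ℕ) → s i = 0) (e : Fin n → ℕ)
    (R : Prop) [Decidable R] (hR : R ↔ ∀ i : Fin n, k + 1 < (i : ℕ) → e i = 0) :
    ∏ i, s i ^ e i = z ^ e K * ζ ^ e K1 * (if R then 1 else 0) := by
  classical
  have hp : ∀ i : Fin n, s i ^ e i = (if i = K then z ^ e K else 1) *
      (if i = K1 then ζ ^ e K1 else 1) * (if k + 1 < (i : ℕ) then (0 : ℂ) ^ e i else 1) := by
    intro i
    rcases lt_trichotomy (i : ℕ) k with hi | hi | hi
    · rw [if_neg (by rintro rfl; omega), if_neg (by rintro rfl; omega), if_neg (by omega),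
        h1 i hi, one_pow]
      ring
    · have hiK : i = K := Fin.ext (hi.trans hK.symm)
      have hne : i ≠ K1 := by
        rintro rfl
        omega
      rw [if_pos hiK, if_neg hne, if_neg (by omega), hiK, h2]
      ring
    · rcases Nat.lt_or_ge (k + 1) (i : ℕ) with h | h
      · rw [if_neg (by rintro rfl; omega), if_neg (by rintro rfl; omega), if_pos h, h4 i h]
        ring
      · have hiK1 : i = K1 := Fin.ext (by omega)
        have hne : i ≠ K := by
          rintro rfl
          omega
        rw [if_neg hne, if_pos hiK1, if_neg (by omega), hiK1, h3]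
        ring
  have hRR : ∏ i : Fin n, (if k + 1 < (i : ℕ) then (0 : ℂ) ^ e i else 1) = if R then 1 else 0 := by
    split_ifs with h
    · apply prod_eq_one
      intro i _
      split_ifs with hi
      · rw [hR.1 h i hi, pow_zero]
      · rfl
    · rw [hR] at h
      push Not at h
      obtain ⟨i, hi, hne⟩ := h
      apply prod_eq_zero (mem_univ i)
      rw [if_pos hi, zero_pow hne]
  rw [Finset.prod_congr rfl (fun i _ => hp i), prod_mul_distrib, prod_mul_distrib, hRR,
    Finset.prod_ite_eq' univ K (fun _ => z ^ e K), Finset.prod_ite_eq' univ K1 (fun _ => ζ ^ e K1),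
    if_pos (mem_univ _), if_pos (mem_univ _)]

section

variable {p : ℕ} [Fact p.Prime] {N : ℕ → ℕ} {n : ℕ}

open Classical in
/-- The mass of `aa` at the generators of block `K`. -/
def fn (K : Fin n) (v : V p (N K)) : ℂ :=
  (w p K : ℂ) * Ex K (fun h : H p N n => if h = Pi.single K v then 1 else 0)

theorem sum_fn (K : Fin n) (φ : V p (N K) → ℂ) :
    ∑ v, fn (n := n) K v * φ v = (w p K : ℂ) * ((1 / ((N K : ℂ) * ((p : ℂ) - 1))) *
      ∑ j : Fin (N K), ∑ a ∈ (univ : Finset (ZMod p)).erase 0, φ (Pi.single j a)) := by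
  classical
  have h : ∀ (v : V p (N K)) (j : Fin (N K)) (a : ZMod p),
      (if (Pi.single K (Pi.single j a) : H p N n) = Pi.single K v then (1 : ℂ) else 0)
        = if v = Pi.single j a then 1 else 0 := by
    intro v j a
    by_cases hv : v = Pi.single j a
    · rw [if_pos hv, hv, if_pos rfl]
    · rw [if_neg hv, if_neg]
      intro hh
      exact hv (Pi.single_injective K hh).symm
  have hφ : ∀ (j : Fin (N K)) (a : ZMod p), φ (Pi.single j a)
      = ∑ v, (if v = Pi.single j a then (1 : ℂ) else 0) * φ v := by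
    intro j a
    simp only [ite_mul, one_mul, zero_mul]
    rw [Finset.sum_ite_eq' univ (Pi.single j a) φ, if_pos (mem_univ _)]
  have hL : ∀ v : V p (N K), fn (n := n) K v * φ v = (w p K : ℂ) * ((1 / ((N K : ℂ) * ((p : ℂ) - 1))) *
      ∑ j : Fin (N K), ∑ a ∈ (univ : Finset (ZMod p)).erase 0,
        (if v = Pi.single j a then (1 : ℂ) else 0) * φ v) := by
    intro v
    unfold fn Ex
    have : (∑ j : Fin (N K), ∑ a ∈ (univ : Finset (ZMod p)).erase 0,
        (if (Pi.single K (Pi.single j a) : H p N n) = Pi.single K v then (1 : ℂ) else 0))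
        = ∑ j : Fin (N K), ∑ a ∈ (univ : Finset (ZMod p)).erase 0,
          (if v = Pi.single j a then (1 : ℂ) else 0) :=
      sum_congr rfl (fun j _ => sum_congr rfl (fun a _ => h v j a))
    rw [this, mul_assoc, mul_assoc, sum_mul]
    congr 2
    refine sum_congr rfl (fun j _ => ?_)
    rw [sum_mul]
  rw [sum_congr rfl (fun v _ => hL v), ← mul_sum, ← mul_sum, sum_comm]
  congr 2
  refine sum_congr rfl (fun j _ => ?_)
  rw [sum_comm]
  exact sum_congr rfl (fun a _ => (hφ j a).symm)

open Classical in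
/-- The summand of `aa` is at most the norm of `aa`. -/
theorem fn_le (hw : ∀ k, 0 < w p k) (hN : ∀ i, 0 < N i) (K : Fin n) (v : V p (N K)) :
    ‖fn (n := n) K v‖ ≤ ‖(aa (Pi.single K v : H p N n) : ℂ)‖ := by
  have hp2 : (2 : ℝ) ≤ (p : ℝ) := by exact_mod_cast (Fact.out : p.Prime).two_le
  have hp1 : (0 : ℝ) < (p : ℝ) - 1 := by linarith
  set g : H p N n := Pi.single K v with hg
  set t : Fin n → ℝ := fun i => w p i * ((1 / ((N i : ℝ) * ((p : ℝ) - 1))) *
    ∑ j : Fin (N i), ∑ a ∈ (univ : Finset (ZMod p)).erase 0,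
      (if (Pi.single i (Pi.single j a) : H p N n) = g then (1 : ℝ) else 0)) with ht
  have ht0 : ∀ i, 0 ≤ t i := by
    intro i
    have hNi : (0 : ℝ) < (N i : ℝ) := by exact_mod_cast hN i
    refine mul_nonneg (hw i).le (mul_nonneg (by positivity) ?_)
    refine sum_nonneg (fun j _ => sum_nonneg (fun a _ => ?_))
    split_ifs <;> norm_num
  have htC : ∀ i : Fin n, ((w p i : ℂ) * Ex i (fun h : H p N n => if h = g then 1 else 0)) = (t i : ℂ) := by
    intro i
    rw [ht]
    unfold Ex
    push_cast
    refine congrArg _ (congrArg _ (sum_congr rfl (fun j _ => sum_congr rfl (fun a _ => ?_))))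
    split_ifs <;> simp
  have haa : (aa g : ℂ) = ((∑ i, t i : ℝ) : ℂ) := by
    unfold aa
    push_cast
    exact sum_congr rfl (fun i _ => htC i)
  have hfn : fn (n := n) K v = (t K : ℂ) := htC K
  rw [hfn, haa, Complex.norm_real, Complex.norm_real, Real.norm_of_nonneg (ht0 K),
    Real.norm_of_nonneg (sum_nonneg (fun i _ => ht0 i))]
  exact single_le_sum (fun i _ => ht0 i) (mem_univ K)

theorem chr_add {M : ℕ} (u v v' : V p M) : chr u (v + v') = chr u v * chr u v' := by
  unfold chr
  rw [← AddChar.map_add_eq_mul]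
  congr 1
  rw [← sum_add_distrib]
  exact sum_congr rfl (fun j _ => by rw [Pi.add_apply, mul_add])

theorem chr_zero {M : ℕ} (u : V p M) : chr u (0 : V p M) = 1 := by
  unfold chr
  simp

theorem chr_norm {M : ℕ} (u v : V p M) : ‖chr u v‖ = 1 := by
  unfold chr
  exact AddChar.norm_apply _ _

end

/-- Module CMP. -/
theorem t_CMP : S_CONC → S_NUM → S_AAF → S_VAL → S_CMP := by
  classical
  intro hC hNum hA hV p _ N l x y d m hN hD k χ hkl hχ r hr hrle
  obtain ⟨hw, htau, -, -, -, -⟩ := hNum p
  obtain ⟨-, -, -, hreal⟩ := hA p N (l + 2) hN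
  have hp2 : (2 : ℝ) ≤ (p : ℝ) := by exact_mod_cast (Fact.out : p.Prime).two_le
  have hp0 : (0 : ℝ) < (p : ℝ) := by linarith
  set K : Fin (l + 2) := ⟨k, by omega⟩ with hK
  set K1 : Fin (l + 2) := ⟨k + 1, by omega⟩ with hK1
  have hKk : (K : ℕ) = k := rfl
  have hK1k : (K1 : ℕ) = k + 1 := rfl
  have hwk : 0 < w p k := (hw k).1
  have hwk1 : w p k ≤ 1 := (hw k).2.1
  have hwk' : 0 < w p (k + 1) := (hw (k + 1)).1
  have hwk1' : w p (k + 1) ≤ 1 := (hw (k + 1)).2.1
  set q : ℝ := -r / w p k with hq
  have hqle : |q| ≤ 1 / (8 * p) := by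
    rw [hq, abs_div, abs_neg, abs_of_pos hwk, div_le_iff₀ hwk]
    calc |r| ≤ w p k / (8 * p) := hrle
      _ = 1 / (8 * p) * w p k := by ring
  have hqhalf : |q| ≤ 1 / 2 := by
    refine hqle.trans ?_
    rw [div_le_div_iff₀ (by positivity) (by norm_num)]
    linarith
  have hqw : w p k * q = -r := by
    rw [hq]
    field_simp
  -- the number of values of the length of block `k + 1`
  set D : ℕ := univ.sup (d K1) with hDdef
  have hDle : ∀ v, d K1 v ≤ D := fun v => Finset.le_sup (mem_univ v)
  set R : H p N (l + 2) → Prop := fun g => ∀ i : Fin (l + 2), k + 1 < (i : ℕ) → d i (g i) = 0 with hR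
  set f : Option (Fin (D + 1)) → V p (N K) → ℂ := fun o v => match o with
    | none => fn (n := l + 2) K v
    | some j => ∑ g ∈ univ.filter (fun g : H p N (l + 2) => g K = v),
        if (d K1 (g K1) = (j : ℕ) ∧ R g) then x g * χ g else 0 with hf
  set c : Option (Fin (D + 1)) → ℝ := fun o => match o with
    | none => 1
    | some j => (1 / 2) ^ (j : ℕ) with hc
  have hc0 : ∀ i, 0 ≤ c i := by
    intro i
    rcases i with _ | j
    · exact zero_le_one
    · exact pow_nonneg (by norm_num) _
  have hcs : ∑ i, c i ≤ 3 := by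
    rw [Fintype.sum_option]
    have h1 : ∑ j : Fin (D + 1), c (some j) ≤ 2 := by
      change ∑ j : Fin (D + 1), (1 / 2 : ℝ) ^ (j : ℕ) ≤ 2
      rw [Fin.sum_univ_eq_sum_range (fun j => (1 / 2 : ℝ) ^ j) (D + 1)]
      exact sum_geometric_two_le _
    have h2 : c none = 1 := rfl
    linarith
  have hfm : ∀ i v, ‖f i v‖ ≤ m K v := by
    intro i v
    rcases i with _ | j
    · refine (fn_le (fun k => (hw k).1) hN K v).trans ?_
      refine le_trans ?_ (hD.ma K v)
      exact single_le_sum (f := fun g : H p N (l + 2) => ‖(aa g : ℂ)‖) (fun g _ => norm_nonneg _)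
        (mem_filter.2 ⟨mem_univ _, by simp⟩)
    · refine (norm_sum_le _ _).trans (le_trans (sum_le_sum (fun g _ => ?_)) (hD.mx K v))
      split_ifs
      · rw [norm_mul, hχ.norm, mul_one]
      · rw [norm_zero]
        exact norm_nonneg _
  have hm0 : ∀ v, 0 ≤ m K v := fun v =>
    le_trans (sum_nonneg (fun g _ => norm_nonneg _)) (hD.mx K v)
  obtain ⟨u, hu⟩ := hC p (N K) (m K) 16 (tau p K) (d K) (by norm_num) (htau k).1 (htau k).2.1
    (hD.pkg K) hm0 (hD.msym K) (hD.mtot K) q hqle (Option (Fin (D + 1))) f c hc0 hfm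
  set φ : V p (N K) → ℂ := fun v => chr u v - (q : ℂ) ^ d K v with hφ
  have hsq : Real.sqrt (tau p K) = w p (k + 1) ^ 2 / 10 ^ 5 := by
    have : tau p K = (w p (k + 1) ^ 2 / 10 ^ 5) ^ 2 := by
      unfold tau
      rw [hKk]
      ring
    rw [this, Real.sqrt_sq (by positivity)]
  have hbd : (∑ i, c i) * (3 * 16 * Real.sqrt (tau p K)) ≤ 144 / 10 ^ 5 * w p (k + 1) ^ 2 := by
    rw [hsq]
    have : 0 ≤ 3 * 16 * (w p (k + 1) ^ 2 / 10 ^ 5) := by positivity
    calc (∑ i, c i) * (3 * 16 * (w p (k + 1) ^ 2 / 10 ^ 5))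
        ≤ 3 * (3 * 16 * (w p (k + 1) ^ 2 / 10 ^ 5)) := mul_le_mul_of_nonneg_right hcs this
      _ = 144 / 10 ^ 5 * w p (k + 1) ^ 2 := by ring
  have hu' := hu.trans hbd
  rw [Fintype.sum_option] at hu'
  have hsome0 : 0 ≤ ∑ j : Fin (D + 1), c (some j) * ‖∑ v, f (some j) v * (chr u v - (q : ℂ) ^ d K v)‖ :=
    sum_nonneg (fun j _ => mul_nonneg (hc0 (some j)) (norm_nonneg _))
  have hnone : ‖∑ v, fn (n := l + 2) K v * φ v‖ ≤ 144 / 10 ^ 5 * w p (k + 1) ^ 2 := by
    have h1 : c none * ‖∑ v, f none v * (chr u v - (q : ℂ) ^ d K v)‖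
        = ‖∑ v, fn (n := l + 2) K v * φ v‖ := by
      change 1 * ‖∑ v, fn (n := l + 2) K v * φ v‖ = _
      rw [one_mul]
    rw [h1] at hu'
    linarith
  have hsome : ∑ j : Fin (D + 1), (1 / 2 : ℝ) ^ (j : ℕ) * ‖∑ v, f (some j) v * φ v‖
      ≤ 144 / 10 ^ 5 * w p (k + 1) ^ 2 := by
    have h1 : 0 ≤ c none * ‖∑ v, f none v * (chr u v - (q : ℂ) ^ d K v)‖ :=
      mul_nonneg (hc0 none) (norm_nonneg _)
    have h2 : ∑ j : Fin (D + 1), c (some j) * ‖∑ v, f (some j) v * (chr u v - (q : ℂ) ^ d K v)‖
      = ∑ j : Fin (D + 1), (1 / 2 : ℝ) ^ (j : ℕ) * ‖∑ v, f (some j) v * φ v‖ := rfl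
    linarith
  -- the new character
  set χ' : H p N (l + 2) → ℂ := fun g => χ g * chr u (g K) with hχ'
  have hχ'add : ∀ g h, χ' (g + h) = χ' g * χ' h := by
    intro g h
    change χ (g + h) * chr u ((g + h) K) = (χ g * chr u (g K)) * (χ h * chr u (h K))
    rw [hχ.add, Pi.add_apply, chr_add]
    ring
  have hχ'norm : ∀ g, ‖χ' g‖ = 1 := by
    intro g
    change ‖χ g * chr u (g K)‖ = 1
    rw [norm_mul, hχ.norm, chr_norm, one_mul]
  have hIs : IsChr (k + 1) χ' := by
    refine ⟨hχ'add, hχ'norm, ?_⟩
    intro g hg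
    change χ g * chr u (g K) = 1
    rw [hχ.triv g (fun i hi => hg i (by omega)), hg K (by omega), chr_zero, one_mul]
  refine ⟨χ', hIs, ?_, ?_⟩
  · -- the residual
    choose ρ hρ using fun i => hreal i χ' hχ'add hχ'norm
    refine ⟨∑ i ∈ univ.filter (fun i : Fin (l + 2) => (i : ℕ) < k + 1), w p i * ρ i, ?_, ?_⟩
    · unfold tt
      push_cast
      exact sum_congr rfl (fun i _ => by rw [hρ])
    · have htt : tt (k + 1) χ' = (((∑ i ∈ univ.filter (fun i : Fin (l + 2) => (i : ℕ) < k + 1),
          w p i * ρ i : ℝ)) : ℂ) := by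
        unfold tt
        push_cast
        exact sum_congr rfl (fun i _ => by rw [hρ])
      have habs : |∑ i ∈ univ.filter (fun i : Fin (l + 2) => (i : ℕ) < k + 1), w p i * ρ i|
          = ‖tt (k + 1) χ'‖ := by
        rw [htt, Complex.norm_real, Real.norm_eq_abs]
      rw [habs]
      -- the sum over the blocks `< k + 1`
      have hfil : univ.filter (fun i : Fin (l + 2) => (i : ℕ) < k + 1)
          = insert K (univ.filter (fun i : Fin (l + 2) => (i : ℕ) < k)) := by
        ext i
        simp only [mem_filter, mem_univ, true_and, mem_insert]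
        constructor
        · intro hi
          rcases Nat.lt_succ_iff_lt_or_eq.1 hi with h | h
          · exact Or.inr h
          · exact Or.inl (Fin.ext h)
        · rintro (h | h)
          · rw [h]
            omega
          · omega
      have hsingle : ∀ (i : Fin (l + 2)) (v : V p (N i)), (i : ℕ) < k →
          χ' (Pi.single i v) = χ (Pi.single i v) := by
        intro i v hi
        change χ (Pi.single i v) * chr u ((Pi.single i v : H p N (l + 2)) K) = χ (Pi.single i v)
        have : K ≠ i := by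
          intro h
          rw [← h] at hi
          omega
        rw [Pi.single_eq_of_ne this, chr_zero, mul_one]
      have hsK : ∀ v : V p (N K), χ (Pi.single K v) = 1 := by
        intro v
        apply hχ.triv
        intro i hi
        have : i ≠ K := by
          intro h
          rw [h] at hi
          omega
        rw [Pi.single_eq_of_ne this]
      have hExlt : ∀ i : Fin (l + 2), (i : ℕ) < k → Ex i χ' = Ex i χ := by
        intro i hi
        unfold Ex
        congr 1
        exact sum_congr rfl (fun j _ => sum_congr rfl (fun a _ => hsingle i _ hi))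
      have httk : tt (k + 1) χ' = (r : ℂ) + (w p k : ℂ) * Ex K χ' := by
        unfold tt
        rw [hfil, sum_insert (by simp [hKk]), add_comm, ← hr]
        congr 1
        unfold tt
        exact sum_congr rfl (fun i hi => by rw [hExlt i (mem_filter.1 hi).2])
      -- VAL at the functional with `q` on block `k`
      have hval := (hV p N (l + 2) d m (fun i => tau p i) k χ (sv k (q : ℂ) 0) hN hD.pkg hχ
        (fun i hi => by unfold sv; rw [if_pos hi])
        (fun i hi => by
          unfold sv
          rw [if_neg (by omega)]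
          split_ifs with h1 h2
          · rw [Complex.norm_real]
            exact hqhalf
          · rw [norm_zero]
            norm_num
          · rw [norm_zero]
            norm_num)).1 K (le_of_eq hKk.symm)
      have hsvK : sv k (q : ℂ) 0 K = (q : ℂ) := by
        unfold sv
        rw [if_neg (by omega), if_pos hKk]
      rw [hsvK] at hval
      have hPh : ∀ v : V p (N K), Ph d χ (sv k (q : ℂ) 0) (Pi.single K v) = (q : ℂ) ^ d K v := by
        intro v
        unfold Ph
        rw [hsK, one_mul, Finset.prod_eq_single K]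
        · rw [Pi.single_eq_same, hsvK]
        · intro b _ hb
          rw [Pi.single_eq_of_ne hb, (hD.pkg b).zero, pow_zero]
        · intro h
          exact absurd (mem_univ K) h
      have hkey : ∑ v, fn (n := l + 2) K v * φ v
          = (w p k : ℂ) * (Ex K χ' - Ex K (Ph d χ (sv k (q : ℂ) 0))) := by
        rw [sum_fn]
        unfold Ex
        rw [← mul_sub, ← sum_sub_distrib]
        congr 2
        refine sum_congr rfl (fun j _ => ?_)
        rw [← sum_sub_distrib]
        refine sum_congr rfl (fun a _ => ?_)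
        rw [hPh]
        change chr u (Pi.single j a) - (q : ℂ) ^ d K (Pi.single j a)
          = χ (Pi.single K (Pi.single j a)) * chr u ((Pi.single K (Pi.single j a) : H p N (l + 2)) K)
            - (q : ℂ) ^ d K (Pi.single j a)
        rw [hsK, one_mul, Pi.single_eq_same]
      have hqwC : (w p k : ℂ) * (q : ℂ) = -(r : ℂ) := by
        exact_mod_cast congrArg (fun t : ℝ => (t : ℂ)) hqw
      have hfin : tt (k + 1) χ' = ∑ v, fn (n := l + 2) K v * φ v
          + (w p k : ℂ) * (Ex K (Ph d χ (sv k (q : ℂ) 0)) - (q : ℂ)) := by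
        rw [httk, hkey]
        linear_combination hqwC
      have hτ : tau p K = w p (k + 1) ^ 4 / 10 ^ 10 := rfl
      have h1 : ‖tt (k + 1) χ'‖ ≤ 144 / 10 ^ 5 * w p (k + 1) ^ 2
          + w p k * (2 * tau p K) := by
        rw [hfin]
        refine (norm_add_le _ _).trans (add_le_add hnone ?_)
        rw [norm_mul, Complex.norm_real, Real.norm_of_nonneg hwk.le]
        exact mul_le_mul_of_nonneg_left hval hwk.le
      refine h1.trans ?_
      have h2 : w p k * (2 * tau p K) ≤ 2 / 10 ^ 10 * w p (k + 1) ^ 2 := by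
        rw [hτ]
        have h3 : w p (k + 1) ^ 4 ≤ w p (k + 1) ^ 2 :=
          pow_le_pow_of_le_one hwk'.le hwk1' (by norm_num)
        calc w p k * (2 * (w p (k + 1) ^ 4 / 10 ^ 10))
            ≤ 1 * (2 * (w p (k + 1) ^ 4 / 10 ^ 10)) :=
              mul_le_mul_of_nonneg_right hwk1 (by positivity)
          _ ≤ 2 / 10 ^ 10 * w p (k + 1) ^ 2 := by linarith
      have h4 : w p (k + 1) ≤ 1 / (1000 * p) := by
        change w p k ^ 2 / (1000 * p) ≤ 1 / (1000 * p)
        exact div_le_div_of_nonneg_right (pow_le_one₀ hwk.le hwk1) (by positivity)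
      have h5 : w p (k + 1) ^ 2 ≤ w p (k + 1) * (1 / (1000 * p)) := by
        rw [sq]
        exact mul_le_mul_of_nonneg_left h4 hwk'.le
      have h6 : w p (k + 1) / (8 * p) = 125 * (w p (k + 1) * (1 / (1000 * p))) := by
        field_simp
        norm_num
      rw [h6]
      have h7 : 0 ≤ w p (k + 1) * (1 / (1000 * p)) := by positivity
      linarith
  · -- the comparison
    intro ζ hζ
    have hid : ap x (Ph d χ' (sv (k + 1) ζ 0)) - ap x (Ph d χ (sv k (q : ℂ) ζ))
        = ∑ j : Fin (D + 1), ζ ^ (j : ℕ) * ∑ v, f (some j) v * φ v := by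
      have hs1 : ∀ g : H p N (l + 2), Ph d χ' (sv (k + 1) ζ 0) g
          = χ g * chr u (g K) * (ζ ^ d K1 (g K1) * (if R g then 1 else 0)) := by
        intro g
        unfold Ph
        rw [prod_gen k K K1 hKk hK1k (sv (k + 1) ζ 0) 1 ζ
          (fun i hi => by unfold sv; rw [if_pos (by omega)])
          (by unfold sv; rw [if_pos (by omega)])
          (by unfold sv; rw [if_neg (by omega), if_pos (by omega)])
          (fun i hi => by
            unfold sv
            rw [if_neg (by omega), if_neg (by omega)]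
            split_ifs <;> rfl) (fun i => d i (g i)) (R g) Iff.rfl, one_pow, one_mul]
      have hs0 : ∀ g : H p N (l + 2), Ph d χ (sv k (q : ℂ) ζ) g
          = χ g * ((q : ℂ) ^ d K (g K) * ζ ^ d K1 (g K1) * (if R g then 1 else 0)) := by
        intro g
        unfold Ph
        rw [prod_gen k K K1 hKk hK1k (sv k (q : ℂ) ζ) (q : ℂ) ζ
          (fun i hi => by unfold sv; rw [if_pos hi])
          (by unfold sv; rw [if_neg (by omega), if_pos hKk])
          (by unfold sv; rw [if_neg (by omega), if_neg (by omega), if_pos (by omega)])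
          (fun i hi => by
            unfold sv
            rw [if_neg (by omega), if_neg (by omega), if_neg (by omega)])
          (fun i => d i (g i)) (R g) Iff.rfl]
      have hL : ap x (Ph d χ' (sv (k + 1) ζ 0)) - ap x (Ph d χ (sv k (q : ℂ) ζ))
          = ∑ g : H p N (l + 2), x g * χ g * φ (g K) * (if R g then 1 else 0) * ζ ^ d K1 (g K1) := by
        unfold ap
        rw [← sum_sub_distrib]
        refine sum_congr rfl (fun g _ => ?_)
        rw [hs1, hs0]
        change x g * (χ g * chr u (g K) * (ζ ^ d K1 (g K1) * if R g then 1 else 0)) -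
          x g * (χ g * ((q : ℂ) ^ d K (g K) * ζ ^ d K1 (g K1) * if R g then 1 else 0)) =
          x g * χ g * (chr u (g K) - (q : ℂ) ^ d K (g K)) * (if R g then 1 else 0) * ζ ^ d K1 (g K1)
        ring
      have hin : ∀ j : Fin (D + 1), ∑ v, f (some j) v * φ v
          = ∑ g : H p N (l + 2), (if (d K1 (g K1) = (j : ℕ) ∧ R g) then x g * χ g else 0) * φ (g K) := by
        intro j
        rw [← Finset.sum_fiberwise univ (fun g : H p N (l + 2) => g K)]
        refine sum_congr rfl (fun v _ => ?_)
        change (∑ g ∈ univ.filter (fun g : H p N (l + 2) => g K = v),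
          if (d K1 (g K1) = (j : ℕ) ∧ R g) then x g * χ g else 0) * φ v = _
        rw [sum_mul]
        refine sum_congr rfl (fun g hg => ?_)
        rw [(mem_filter.1 hg).2]
      rw [hL]
      simp_rw [hin, mul_sum]
      rw [sum_comm]
      refine sum_congr rfl (fun g _ => ?_)
      by_cases hRg : R g
      · rw [if_pos hRg, Finset.sum_eq_single (⟨d K1 (g K1), Nat.lt_succ_of_le (hDle _)⟩ : Fin (D + 1))]
        · rw [if_pos ⟨rfl, hRg⟩]
          ring
        · intro b _ hb
          rw [if_neg, zero_mul, mul_zero]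
          rintro ⟨h, -⟩
          exact hb (Fin.ext h.symm)
        · intro h
          exact absurd (mem_univ _) h
      · rw [if_neg hRg, mul_zero, zero_mul]
        symm
        apply sum_eq_zero
        intro j _
        rw [if_neg (fun h => hRg h.2), zero_mul, mul_zero]
    rw [hid]
    refine (norm_sum_le _ _).trans (le_trans (sum_le_sum (fun j _ => ?_))
      (hsome.trans (by
        have : 0 ≤ w p (k + 1) ^ 2 := by positivity
        linarith)))
    rw [norm_mul, norm_pow]
    exact mul_le_mul_of_nonneg_right (pow_le_pow_left₀ (norm_nonneg _) hζ _) (norm_nonneg _)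

end

end Pool.Agent.D0H97.OP.Cmp

namespace Pool.Agent.D0H97.OP

open Pool.Agent.D0H73.OP

theorem t_CMP : S_CONC → S_NUM → S_AAF → S_VAL → S_CMP := Cmp.t_CMP

end Pool.Agent.D0H97.OP
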