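import Pool.Agent.D0H73.OP.Stm

/-!
# Project OP, module VAL: the value of a functional at the generators of a block
-/

open Finset
open scoped BigOperators

namespace Pool.Agent.D0H97.OP

open Pool.Agent.V1192 Pool.Agent.V1192.GA Pool.Agent.D0H73.OP
open Pool.Agent.V1192.UOD (V)

noncomputable section

/-- The functional at a vector supported in block `i`. -/
theorem ph_single {p : ℕ} [Fact p.Prime] {N : ℕ → ℕ} {n : ℕ}
    {d : (i : Fin n) → V p (N i) → ℕ} (hd : ∀ i, d i 0 = 0)
    (χ : H p N n → ℂ) (s : Fin n → ℂ) (i : Fin n) (v : V p (N i)) :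
    Ph d χ s (Pi.single i v) = χ (Pi.single i v) * s i ^ d i v := by
  classical
  unfold Ph
  congr 1
  rw [Finset.prod_eq_single i]
  · rw [Pi.single_eq_same]
  · intro b _ hb
    rw [Pi.single_eq_of_ne hb, hd b, pow_zero]
  · intro h
    exact absurd (mem_univ i) h

theorem t_VAL : S_VAL := by
  classical
  intro p _ N n d m τ k χ s hN hP hχ hs1 hs2
  have hd : ∀ i, d i 0 = 0 := fun i => (hP i).zero
  have hp2 : 2 ≤ p := (Fact.out : p.Prime).two_le
  constructor
  · intro i hi
    have hp1 : (0 : ℝ) < (p : ℝ) - 1 := by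
      have : (2 : ℝ) ≤ (p : ℝ) := by exact_mod_cast hp2
      linarith
    have hNi : (0 : ℝ) < (N i : ℝ) := by exact_mod_cast hN i
    have hcard : ((univ : Finset (ZMod p)).erase 0).card = p - 1 := by
      rw [card_erase_of_mem (mem_univ _), card_univ, ZMod.card]
    have hcardR : (((univ : Finset (ZMod p)).erase 0).card : ℝ) = (p : ℝ) - 1 := by
      rw [hcard, Nat.cast_sub (by omega), Nat.cast_one]
    have hval : ∀ (j : Fin (N i)) (a : ZMod p),
        Ph d χ s (Pi.single i (Pi.single j a)) = s i ^ d i (Pi.single j a) := by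
      intro j a
      rw [ph_single hd χ s i, hχ.triv, one_mul]
      intro i' hi'
      have : i' ≠ i := by
        rintro rfl
        omega
      rw [Pi.single_eq_of_ne this]
    -- the bad coordinates
    set Bad : Finset (Fin (N i)) :=
      univ.filter (fun j : Fin (N i) => ∃ a : ZMod p, a ≠ 0 ∧ d i (Pi.single j a) ≠ 1) with hBad
    have hBc : (Bad.card : ℝ) ≤ τ i * N i := by
      have := (hP i).gens
      convert this using 3
    have hsum : (∑ j : Fin (N i), ∑ a ∈ (univ : Finset (ZMod p)).erase 0,
        (Ph d χ s (Pi.single i (Pi.single j a)) - s i))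
        = (∑ j : Fin (N i), ∑ a ∈ (univ : Finset (ZMod p)).erase 0,
          Ph d χ s (Pi.single i (Pi.single j a))) - ((N i : ℂ) * ((p : ℂ) - 1)) * s i := by
      simp only [sum_sub_distrib, sum_const, card_univ, Fintype.card_fin, nsmul_eq_mul]
      have : (((univ : Finset (ZMod p)).erase 0).card : ℂ) = (p : ℂ) - 1 := by
        rw [hcard, Nat.cast_sub (by omega), Nat.cast_one]
      rw [this]
      ring
    have hNC : (N i : ℂ) * ((p : ℂ) - 1) ≠ 0 := by
      have : ((N i : ℝ) * ((p : ℝ) - 1) : ℝ) ≠ 0 := by positivity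
      intro h
      apply this
      have h' : (((N i : ℝ) * ((p : ℝ) - 1) : ℝ) : ℂ) = 0 := by
        push_cast
        exact h
      exact_mod_cast h'
    have hEx : Ex i (Ph d χ s) - s i = (1 / ((N i : ℂ) * ((p : ℂ) - 1))) *
        ∑ j : Fin (N i), ∑ a ∈ (univ : Finset (ZMod p)).erase 0,
          (Ph d χ s (Pi.single i (Pi.single j a)) - s i) := by
      rw [hsum, Ex]
      generalize (∑ j : Fin (N i), ∑ a ∈ (univ : Finset (ZMod p)).erase 0,
        Ph d χ s (Pi.single i (Pi.single j a))) = T
      generalize (N i : ℂ) * ((p : ℂ) - 1) = c at hNC ⊢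
      field_simp
    have hnorm : ‖(1 / ((N i : ℂ) * ((p : ℂ) - 1)))‖ = 1 / ((N i : ℝ) * ((p : ℝ) - 1)) := by
      have : (1 / ((N i : ℂ) * ((p : ℂ) - 1))) = ((1 / ((N i : ℝ) * ((p : ℝ) - 1)) : ℝ) : ℂ) := by
        push_cast
        ring
      rw [this, Complex.norm_real, Real.norm_of_nonneg (by positivity)]
    have hb : ∀ j : Fin (N i), ‖∑ a ∈ (univ : Finset (ZMod p)).erase 0,
        (Ph d χ s (Pi.single i (Pi.single j a)) - s i)‖
        ≤ if j ∈ Bad then 2 * ((p : ℝ) - 1) else 0 := by
      intro j
      split_ifs with hj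
      · refine (norm_sum_le _ _).trans ?_
        have : ∀ a ∈ (univ : Finset (ZMod p)).erase 0,
            ‖Ph d χ s (Pi.single i (Pi.single j a)) - s i‖ ≤ 2 := by
          intro a _
          rw [hval]
          have h1 := hs2 i hi
          refine (norm_sub_le _ _).trans ?_
          have h2 : ‖s i ^ d i (Pi.single j a)‖ ≤ 1 := by
            rw [norm_pow]
            exact pow_le_one₀ (norm_nonneg _) (h1.trans (by norm_num))
          linarith
        refine (sum_le_sum this).trans ?_
        rw [sum_const, nsmul_eq_mul, hcardR]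
        linarith
      · rw [sum_eq_zero, norm_zero]
        intro a ha
        have hj' : d i (Pi.single j a) = 1 := by
          by_contra hne
          apply hj
          rw [hBad, mem_filter]
          exact ⟨mem_univ _, a, (mem_erase.1 ha).1, hne⟩
        rw [hval, hj', pow_one, sub_self]
    rw [hEx, norm_mul, hnorm]
    have htot : ‖∑ j : Fin (N i), ∑ a ∈ (univ : Finset (ZMod p)).erase 0,
        (Ph d χ s (Pi.single i (Pi.single j a)) - s i)‖ ≤ τ i * N i * (2 * ((p : ℝ) - 1)) := by
      refine (norm_sum_le _ _).trans ((sum_le_sum (fun j _ => hb j)).trans ?_)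
      rw [← sum_filter, sum_const, nsmul_eq_mul]
      have : (univ.filter (fun j => j ∈ Bad)) = Bad := by
        ext j
        simp
      rw [this]
      exact mul_le_mul_of_nonneg_right hBc (by positivity)
    calc 1 / ((N i : ℝ) * ((p : ℝ) - 1)) * ‖∑ j : Fin (N i), ∑ a ∈ (univ : Finset (ZMod p)).erase 0,
        (Ph d χ s (Pi.single i (Pi.single j a)) - s i)‖
        ≤ 1 / ((N i : ℝ) * ((p : ℝ) - 1)) * (τ i * N i * (2 * ((p : ℝ) - 1))) :=
          mul_le_mul_of_nonneg_left htot (by positivity)
      _ = 2 * τ i := by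
          field_simp
  · intro i hi
    unfold Ex
    congr 1
    refine sum_congr rfl (fun j _ => sum_congr rfl (fun a _ => ?_))
    rw [ph_single hd χ s i, hs1 i hi, one_pow, mul_one]

end

end Pool.Agent.D0H97.OP
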